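import Pool.Agent.Helper47.SR.Goals

/-!
# Packet SR-BASE: the start of the middle-out construction
-/

set_option autoImplicit false

namespace Pool.Agent.Helper47.SR

open Finset

lemma base_even {P : Type} [DecidableEq P] (r : ℕ) (L : ℕ → Finset P) (cov : P → P → Prop) :
    PSCD (2 * r) L cov r := by
  refine ⟨(L r).image (fun x => [x]), ?_, ?_⟩
  · intro l hl
    obtain ⟨x, hx, rfl⟩ := mem_image.mp hl
    refine ⟨r, le_rfl, le_rfl, by simp, ?_, ?_⟩
    · intro j y hj
      rcases j with _ | j
      · simp only [List.getElem?_cons_zero, Option.some.injEq] at hj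
        rw [← hj]
        simpa using hx
      · simp at hj
    · intro j y z hj hj'
      simp at hj'
  · intro j hj1 hj2 x hx
    have hjr : j = r := by omega
    subst hjr
    refine ⟨[x], ⟨mem_image.mpr ⟨x, hx, rfl⟩, by simp⟩, ?_⟩
    rintro l ⟨hl, hxl⟩
    obtain ⟨y, hy, rfl⟩ := mem_image.mp hl
    simp only [List.mem_singleton] at hxl
    rw [hxl]

lemma base_odd {P : Type} [DecidableEq P] (r : ℕ) (L : ℕ → Finset P) (cov : P → P → Prop)
    (hd : ∀ i j, i ≠ j → Disjoint (L i) (L j)) (hc : #(L r) = #(L (r + 1)))
    (h : ∀ S ⊆ L r, ∀ [DecidablePred (fun x => ∃ s ∈ S, cov s x)],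
      #S ≤ #((L (r + 1)).filter (fun x => ∃ s ∈ S, cov s x))) :
    PSCD (2 * r + 1) L cov r := by
  classical
  let t : {x // x ∈ L r} → Finset P := fun x => (L (r + 1)).filter (fun y => cov x.1 y)
  have hHall : ∀ s : Finset {x // x ∈ L r}, #s ≤ #(s.biUnion t) := by
    intro s
    set S : Finset P := s.map (Function.Embedding.subtype _) with hS
    have hSL : S ⊆ L r := by
      intro x hx
      rw [hS, mem_map] at hx
      obtain ⟨y, -, rfl⟩ := hx
      exact y.2
    have h1 := h S hSL
    have h2 : #S = #s := by rw [hS, card_map]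
    have h3 : (L (r + 1)).filter (fun x => ∃ s ∈ S, cov s x) ⊆ s.biUnion t := by
      intro x hx
      rw [mem_filter] at hx
      obtain ⟨hx1, y, hy, hyx⟩ := hx
      rw [hS, mem_map] at hy
      obtain ⟨y', hy', rfl⟩ := hy
      exact mem_biUnion.mpr ⟨y', hy', mem_filter.mpr ⟨hx1, hyx⟩⟩
    have h4 := card_le_card h3
    omega
  obtain ⟨f, hf, hft⟩ := (Finset.all_card_le_biUnion_card_iff_exists_injective t).mp hHall
  have hfL : ∀ x, f x ∈ L (r + 1) := fun x => (mem_filter.mp (hft x)).1
  have hfc : ∀ x, cov x.1 (f x) := fun x => (mem_filter.mp (hft x)).2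
  -- surjective
  have himg : (univ : Finset {x // x ∈ L r}).image f = L (r + 1) := by
    apply eq_of_subset_of_card_le
    · intro y hy
      obtain ⟨x, -, rfl⟩ := mem_image.mp hy
      exact hfL x
    · rw [card_image_of_injective _ hf, card_univ, Fintype.card_coe, hc]
  refine ⟨(univ : Finset {x // x ∈ L r}).image (fun x => [x.1, f x]), ?_, ?_⟩
  · intro l hl
    obtain ⟨x, -, rfl⟩ := mem_image.mp hl
    refine ⟨r, le_rfl, by omega, ?_, ?_, ?_⟩
    · simp only [List.length_cons, List.length_nil]
      omega
    · intro j y hj
      rcases j with _ | _ | j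
      · simp only [List.getElem?_cons_zero, Option.some.injEq] at hj
        rw [← hj]
        simp
      · simp only [zero_add, List.getElem?_cons_succ, List.getElem?_cons_zero,
          Option.some.injEq] at hj
        rw [← hj]
        exact hfL x
      · simp at hj
    · intro j y z hj hj'
      rcases j with _ | j
      · simp only [List.getElem?_cons_zero, Option.some.injEq] at hj
        simp only [zero_add, List.getElem?_cons_succ, List.getElem?_cons_zero,
          Option.some.injEq] at hj'
        rw [← hj, ← hj']
        exact hfc x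
      · simp at hj'
  · intro j hj1 hj2 x hx
    have hjr : j = r ∨ j = r + 1 := by omega
    rcases hjr with rfl | rfl
    · refine ⟨[x, f ⟨x, hx⟩], ⟨mem_image.mpr ⟨⟨x, hx⟩, mem_univ _, rfl⟩, by simp⟩, ?_⟩
      rintro l ⟨hl, hxl⟩
      obtain ⟨y, -, rfl⟩ := mem_image.mp hl
      simp only [List.mem_cons, List.not_mem_nil, or_false] at hxl
      rcases hxl with hxl | hxl
      · subst hxl
        rfl
      · exfalso
        have h1 := hfL y
        rw [← hxl] at h1
        exact (disjoint_left.mp (hd j (j + 1) (by omega))) hx h1
    · have hx' : x ∈ (univ : Finset {x // x ∈ L r}).image f := by rw [himg]; exact hx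
      obtain ⟨y, -, hy⟩ := mem_image.mp hx'
      refine ⟨[y.1, f y], ⟨mem_image.mpr ⟨y, mem_univ _, rfl⟩, by simp [hy]⟩, ?_⟩
      rintro l ⟨hl, hxl⟩
      obtain ⟨w, -, rfl⟩ := mem_image.mp hl
      simp only [List.mem_cons, List.not_mem_nil, or_false] at hxl
      rcases hxl with hxl | hxl
      · exfalso
        have h1 := w.2
        rw [← hxl] at h1
        exact (disjoint_left.mp (hd r (r + 1) (by omega))) h1 hx
      · have : w = y := hf (hxl.symm.trans hy.symm)
        rw [this]

theorem goal_BASE (hSTEP : Goal_STEP) : Goal_BASE := by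
  intro P _ n L cov hd hc hcond hmid
  have key : ∀ d r : ℕ, r = n / 2 → d ≤ r → PSCD n L cov (r - d) := by
    intro d
    induction d with
    | zero =>
      intro r hr _
      rcases Nat.even_or_odd' n with ⟨s, hs | hs⟩
      · have : r = s := by omega
        subst this
        subst hs
        exact base_even r L cov
      · have : r = s := by omega
        subst this
        subst hs
        refine base_odd r L cov hd ?_ ?_
        · have := hc r (by omega)
          rw [this]
          congr 2
          omega
        · exact hmid r rfl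
    | succ d ih =>
      intro r hr hdr
      have h1 := ih r hr (by omega)
      set m := r - (d + 1) with hm
      have h2 : r - d = m + 1 := by omega
      rw [h2] at h1
      refine hSTEP n L cov m hd (by omega) (hc m (by omega)) ?_ (hcond m (by omega)) h1
      have := hc (m + 1) (by omega)
      rw [this]
      congr 2
  have := key (n / 2) (n / 2) rfl le_rfl
  rwa [Nat.sub_self] at this

end Pool.Agent.Helper47.SR
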