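import Pool.Agent.Helper47.SR.Goals

/-!
# Packet SR-CT: common transversals
-/

set_option autoImplicit false

namespace Pool.Agent.Helper47.SR

open Finset

theorem goal_CT : Goal_CT := by
  intro E I J _ _ _ _ _ A B hIJ h
  classical
  set U : Finset E := univ.biUnion A with hU
  let t : I ⊕ {e // e ∈ U} → Finset (E ⊕ J) := fun x =>
    match x with
    | Sum.inl i => (A i).disjSum ∅
    | Sum.inr e => ({e.1} : Finset E).disjSum (univ.filter (fun z => e.1 ∈ B z))
  have hHall : ∀ s : Finset (I ⊕ {e // e ∈ U}), #s ≤ #(s.biUnion t) := by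
    intro s
    set S := s.toLeft with hS
    set F' := s.toRight with hF'
    set F : Finset E := F'.map (Function.Embedding.subtype _) with hF
    have hcF : #F = #F' := by rw [hF, card_map]
    set Z : Finset J := univ.filter (fun z => ∃ e ∈ F, e ∈ B z) with hZ
    set T : Finset J := univ.filter (fun z => ¬ ∃ e ∈ F, e ∈ B z) with hT
    have hZT : #Z + #T = Fintype.card J := by
      rw [hZ, hT, ← card_univ]
      exact card_filter_add_card_filter_not (fun z => ∃ e ∈ F, e ∈ B z)
    have hsub : (S.biUnion A ∪ F).disjSum Z ⊆ s.biUnion t := by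
      intro x hx
      rw [mem_biUnion]
      rcases x with e | z
      · rw [inl_mem_disjSum, mem_union] at hx
        rcases hx with hx | hx
        · obtain ⟨i, hi, he⟩ := mem_biUnion.mp hx
          refine ⟨Sum.inl i, by simpa [hS] using hi, ?_⟩
          exact inl_mem_disjSum.mpr he
        · rw [hF, mem_map] at hx
          obtain ⟨e', he', rfl⟩ := hx
          refine ⟨Sum.inr e', by simpa [hF'] using he', ?_⟩
          exact inl_mem_disjSum.mpr (by simp)
      · rw [inr_mem_disjSum, hZ, mem_filter] at hx
        obtain ⟨-, e, he, hez⟩ := hx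
        rw [hF, mem_map] at he
        obtain ⟨e', he', rfl⟩ := he
        refine ⟨Sum.inr e', by simpa [hF'] using he', ?_⟩
        exact inr_mem_disjSum.mpr (by simpa using hez)
    have hdisj : (S.biUnion A) ∩ (T.biUnion B) ⊆ (S.biUnion A) \ F := by
      intro e he
      rw [mem_inter, mem_biUnion (s := T)] at he
      obtain ⟨he1, z, hz, hez⟩ := he
      rw [mem_sdiff]
      refine ⟨he1, fun heF => ?_⟩
      rw [hT, mem_filter] at hz
      exact hz.2 ⟨e, heF, hez⟩
    have h1 := h S T
    have h2 := card_le_card hdisj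
    have h3 : #(S.biUnion A ∪ F) = #((S.biUnion A) \ F) + #F := by
      rw [← card_union_of_disjoint sdiff_disjoint, sdiff_union_self_eq_union]
    have h4 := card_le_card hsub
    rw [card_disjSum] at h4
    have h5 : #S + #F' = #s := by
      rw [hS, hF']; exact card_toLeft_add_card_toRight
    omega
  obtain ⟨f, hf, hft⟩ := (Finset.all_card_le_biUnion_card_iff_exists_injective t).mp hHall
  have ha : ∀ i : I, ∃ e ∈ A i, f (Sum.inl i) = Sum.inl e := by
    intro i
    have h1 : f (Sum.inl i) ∈ (A i).disjSum (∅ : Finset J) := hft (Sum.inl i)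
    rw [mem_disjSum] at h1
    rcases h1 with ⟨e, he, h1⟩ | ⟨z, hz, h1⟩
    · exact ⟨e, he, h1.symm⟩
    · simp at hz
  choose a haA haf using ha
  have haU : ∀ i, a i ∈ U := fun i => mem_biUnion.mpr ⟨i, mem_univ _, haA i⟩
  have hz : ∀ i : I, ∃ z : J, a i ∈ B z ∧ f (Sum.inr ⟨a i, haU i⟩) = Sum.inr z := by
    intro i
    have h1 : f (Sum.inr ⟨a i, haU i⟩) ∈
        ({a i} : Finset E).disjSum (univ.filter (fun z => a i ∈ B z)) :=
      hft (Sum.inr ⟨a i, haU i⟩)
    rw [mem_disjSum] at h1
    rcases h1 with ⟨e, he, h1⟩ | ⟨z, hz, h1⟩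
    · exfalso
      rw [mem_singleton] at he
      subst he
      have := hf ((haf i).trans h1)
      cases this
    · rw [mem_filter] at hz
      exact ⟨z, hz.2, h1.symm⟩
  choose z hzB hzf using hz
  have hainj : Function.Injective a := by
    intro i j hij
    have : f (Sum.inl i) = f (Sum.inl j) := by rw [haf i, haf j, hij]
    exact Sum.inl_injective (hf this)
  have hzinj : Function.Injective z := by
    intro i j hij
    have h1 : f (Sum.inr ⟨a i, haU i⟩) = f (Sum.inr ⟨a j, haU j⟩) := by
      rw [hzf i, hzf j, hij]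
    have h2 := Sum.inr_injective (hf h1)
    exact hainj (congrArg Subtype.val h2)
  have hzbij : Function.Bijective z := (Fintype.bijective_iff_injective_and_card z).mpr ⟨hzinj, hIJ⟩
  exact ⟨a, Equiv.ofBijective z hzbij, hainj, fun i => ⟨haA i, hzB i⟩⟩

end Pool.Agent.Helper47.SR
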